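import Pool.Agent.Y294.AN.AC

/-!
# MP_94eb8e_an, Q1: a non-periodic invariant probability measure of the billiard map of a smooth
table that violates the Oseledets integrability condition

The definitions used by the statement (`IsTable`, `normal`, `state`, `Step`, `billiardMap`,
`HasDerivative`, `derivMap`, `liouville`, `IsInvariant`) are in `Pool/Agent/Y294/AN/Defs.lean`.

The table is the round annulus `1 ≤ |z| ≤ 2`.  The measure is an average of the invariant measures
of the circles of constant angular momentum; it is even absolutely continuous with respect to the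
natural measure `cos φ dr dφ`.
-/

set_option autoImplicit false

open Set Filter Topology MeasureTheory
open scoped ENNReal

namespace Pool.Agent.Results.MP_94eb8e_an.AnnulusMeasure

open Pool.Agent.Y294.AN

/-- There is a billiard table without corners (so without cusps) and a non-periodic invariant
probability measure `μ` of its billiard map `T`, absolutely continuous with respect to
`cos φ dr dφ`, for which `∫ log⁺ ‖DT‖ dμ = ∞`. -/
theorem result : ∃ (Q : Set ℂ) (ℓ : Fin 2 → ℝ) (c : Fin 2 → ℝ → ℂ), IsTable Q ℓ c ∧
    ∃ μ : Measure (ℂ × ℂ), IsInvariant Q c μ ∧ μ ≪ liouville ℓ c ∧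
      (∀ᵐ x ∂μ, ∀ n : ℕ, 1 ≤ n → (billiardMap Q c)^[n] x ≠ x) ∧
      (∀ᵐ x ∂μ, ∃ A, HasDerivative Q c x A) ∧
      ∫⁻ x, ENNReal.ofReal (Real.posLog ‖derivMap Q c x‖) ∂μ = ⊤ :=
  ⟨Ann, la, ca, table, mu, isInvariant, ac, ae_not_periodic, ae_hasDerivative, infinite⟩

end Pool.Agent.Results.MP_94eb8e_an.AnnulusMeasure
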